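import Mathlib
import Pool.Agent.H739R2.CK

/-!
# The isomorphism class of `C(K)` has infinite Banach-Mazur diameter, for every infinite compact `K`

In particular the answer is positive for every Kunen compact.
-/

set_option autoImplicit false

namespace Pool.Agent.Results.MP_d900b7_an.InfiniteDiameterCK

open scoped ENNReal NNReal

universe u

/-- The Banach-Mazur distance `d(Y, Z) = inf ‖T‖ ‖T⁻¹‖`, over all linear isomorphisms `T` of `Y`
onto `Z`, as an element of `[0, ∞]`. -/
noncomputable def bmDist (Y Z : Type u) [NormedAddCommGroup Y] [NormedSpace ℝ Y]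
    [NormedAddCommGroup Z] [NormedSpace ℝ Z] : ℝ≥0∞ :=
  ⨅ T : Y ≃L[ℝ] Z, ENNReal.ofReal (‖(T : Y →L[ℝ] Z)‖ * ‖(T.symm : Z →L[ℝ] Y)‖)

/-- `D(X) = sup d(Y, Z)`, over all Banach spaces `Y` and `Z` isomorphic to `X`, as an element of
`[0, ∞]`. -/
noncomputable def bmDiam (X : Type u) [NormedAddCommGroup X] [NormedSpace ℝ X] : ℝ≥0∞ :=
  ⨆ (Y : Type u) (_ : NormedAddCommGroup Y) (_ : NormedSpace ℝ Y) (_ : CompleteSpace Y)
    (Z : Type u) (_ : NormedAddCommGroup Z) (_ : NormedSpace ℝ Z) (_ : CompleteSpace Z)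
    (_ : Nonempty (X ≃L[ℝ] Y)) (_ : Nonempty (X ≃L[ℝ] Z)), bmDist Y Z

/-- **Theorem.** For every infinite compact Hausdorff space `K` one has `D(C(K)) = ∞`. -/
theorem result (K : Type u) [TopologicalSpace K] [CompactSpace K] [T2Space K] [Infinite K] :
    bmDiam C(K, ℝ) = ∞ := by
  apply ENNReal.eq_top_of_forall_nnreal_le
  intro M
  obtain ⟨Y, Z, i1, i2, i3, i4, i5, i6, hY, hZ, h⟩ := Pool.Agent.H739R2.CK.far K M
  have h1 : (M : ℝ≥0∞) ≤ bmDist Y Z := by
    apply le_iInf
    intro T
    rw [← ENNReal.ofReal_coe_nnreal]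
    exact ENNReal.ofReal_le_ofReal (h T)
  refine h1.trans ?_
  unfold bmDiam
  exact le_iSup_of_le Y <| le_iSup_of_le i1 <| le_iSup_of_le i2 <| le_iSup_of_le i3 <|
    le_iSup_of_le Z <| le_iSup_of_le i4 <| le_iSup_of_le i5 <| le_iSup_of_le i6 <|
    le_iSup_of_le hY <| le_iSup_of_le hZ le_rfl

/-! ### The special case of the question: Kunen compacts -/

/-- A Kunen compact: a scattered nonmetrizable compact Hausdorff space such that `C(K)*` with the
weak-star topology is hereditarily separable and `C(K)` with the weak topology is hereditarily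
Lindelöf. -/
structure IsKunenCompact (K : Type u) [TopologicalSpace K] [CompactSpace K] [T2Space K] : Prop where
  scattered : ∀ L : Set K, IsClosed L → L.Nonempty → ∃ x ∈ L, ∃ U : Set K, IsOpen U ∧ U ∩ L = {x}
  nonmetrizable : ¬ TopologicalSpace.MetrizableSpace K
  separable : ∀ S : Set (WeakDual ℝ C(K, ℝ)), TopologicalSpace.SeparableSpace S
  lindelof : ∀ S : Set (WeakSpace ℝ C(K, ℝ)), IsLindelof S

/-- The diameter is infinite for every Kunen compact. -/
theorem kunen (K : Type u) [TopologicalSpace K] [CompactSpace K] [T2Space K]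
    (hK : IsKunenCompact K) : bmDiam C(K, ℝ) = ∞ := by
  have : Infinite K := by
    rw [← not_finite_iff_infinite]
    intro hfin
    apply hK.nonmetrizable
    have : DiscreteTopology K := inferInstance
    infer_instance
  exact result K

end Pool.Agent.Results.MP_d900b7_an.InfiniteDiameterCK
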